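import Mathlib
import Pool.Agent.H29R2.QD.Main
import Pool.Agent.H29R2.QD.Asym

set_option autoImplicit false

namespace Pool.Agent.Results.MP_b64966_al.QuadraticLower

open Pool.Agent.Helper950.BG

universe u

/-- If the braid group `B_n` embeds in `GL_d(K)` for some field `K`, then
`d ≥ n² / 2 - 5 n^(3/2)`. -/
theorem result (n d : ℕ) (K : Type u) [Field K]
    (f : BraidGroup n →* Matrix.GeneralLinearGroup (Fin d) K) (hf : Function.Injective f) :
    (n : ℝ) ^ 2 / 2 - 5 * n * Real.sqrt n ≤ d :=
  Pool.Agent.H29R2.QD.asym n d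
    (fun _ _ hk hrk => Pool.Agent.H29R2.QD.faithful_bound hk hrk K f hf)

end Pool.Agent.Results.MP_b64966_al.QuadraticLower
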